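import Pool.Agent.Lib.MP_fa224b_lc.K.Kit

/-! The covering game; the covering player cannot win against a flat function. -/

namespace Pool.Agent.Lib.MP_fa224b_lc.K

open MeasureTheory Encodable Filter C
open scoped ENNReal

def cd (y : ℕ → Bool) (d : ℕ) : ℕ := encode (List.ofFn fun i : Fin d => y i)

def lst (m : ℕ) : List ℕ := Denumerable.ofNat (List ℕ) m.unpair.2

def Leg (k a c : ℕ) : Prop := (lst a).countP (· ∈ lst c) * 2 ^ k ≤ (lst a).length

def Hit (p : B) (y : ℕ → Bool) (k : ℕ) : Prop :=
  cd y (p (4 * k)) ∈ lst (p (4 * k + 2)) ∧ Leg k (p (4 * k + 1)) (p (4 * k + 2))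

def Win (F : B → B) : Set B :=
  {p | ∃ y : ℕ → Bool, TLe (bits y) (F p) ∧ ∀ n, ∃ k, n ≤ k ∧ Hit p y k}

def dec (w : B) : ℕ → Bool := fun n => decide (w n = 1)

theorem dec_bits (a : ℕ → Bool) : dec (bits a) = a := by
  funext n
  cases h : a n <;> simp [dec, bits, h]

theorem lst_pair (t : ℕ) (L : List ℕ) : lst (Nat.pair t (encode L)) = L := by simp [lst]

theorem exists_dec {y : ℕ → Bool} {v : B} (h : TLe (bits y) v) : ∃ e, dec (tot e v) = y := by
  obtain ⟨e, he⟩ := tle_iff_ev.1 h
  exact ⟨e, by rw [he.eq_tot, dec_bits]⟩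

theorem meas_dec : Measurable dec := measurable_pi_lambda _ fun n =>
  (measurable_of_countable fun t : ℕ => decide (t = 1)).comp (measurable_pi_apply n)

theorem meas_bits : Measurable bits := measurable_pi_lambda _ fun n =>
  (measurable_of_countable Bool.toNat).comp (measurable_pi_apply n)

theorem meas_hit {X : Type} [MeasurableSpace X] {P : X → B} {Y : X → ℕ → Bool} (hP : Measurable P)
    (hY : Measurable Y) (k : ℕ) : Measurable fun x => Hit (P x) (Y x) k := by
  have h1 : ∀ n, Measurable fun x => P x n := fun n => (measurable_pi_apply n).comp hP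
  have h2 : ∀ d, Measurable fun x => cd (Y x) d := fun d =>
    (measurable_of_countable fun r : Fin d → Bool => encode (List.ofFn r)).comp
      (measurable_pi_lambda _ fun i => (measurable_pi_apply (i : ℕ)).comp hY)
  have e : ∀ x, cd (Y x) (P x (4 * k)) ∈ lst (P x (4 * k + 2)) ↔
      ∃ d, P x (4 * k) = d ∧ cd (Y x) d ∈ lst (P x (4 * k + 2)) := fun x => by simp
  simp only [Hit, e]
  exact (Measurable.exists fun d => (meas_prop₂ (h1 _) measurable_const fun a b => a = b).and
    (meas_prop₂ (h2 d) (h1 _) fun a b => a ∈ lst b)).and (meas_prop₂ (h1 _) (h1 _) (Leg k))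

theorem meas_win {𝒜 : MeasurableSpace B} (h : Adequate 𝒜) {F : B → B}
    (hF : @Measurable B B 𝒜 MeasurableSpace.pi F) : @MeasurableSet B 𝒜 (Win F) := by
  have e : Win F = {p | ∃ e, TLe (bits (dec (tot e (F p)))) (F p) ∧
      ∀ n, ∃ k, n ≤ k ∧ Hit p (dec (tot e (F p))) k} := by
    ext p
    refine ⟨fun ⟨y, h1, h2⟩ => ?_, fun ⟨e, h⟩ => ⟨_, h⟩⟩
    obtain ⟨e, rfl⟩ := exists_dec h1
    exact ⟨e, h1, h2⟩
  have hid : @Measurable B B 𝒜 MeasurableSpace.pi fun x => x := h.meas measurable_id
  rw [e]
  exact measurableSet_setOfPred.2 (Measurable.exists fun e =>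
    (meas_tle (meas_bits.comp (meas_dec.comp ((meas_tot e).comp hF))) hF).and
    (Measurable.forall fun n => Measurable.exists fun k => measurable_const.and
      (meas_hit hid (meas_dec.comp ((meas_tot e).comp hF)) k)))

def emb (k : ℕ) (b : ℕ → Bool) : ℕ → Bool := fun j => if j.unpair.1 = k then b j.unpair.2 else 0

def colb (k : ℕ) (u : B) : ℕ → Bool := fun i => decide (u (2 * Nat.pair k i + 1) = 1)

theorem colb_join (k : ℕ) (z : B) (a : ℕ → Bool) :
    colb k (join z (bits a)) = fun i => a (Nat.pair k i) := by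
  funext i
  have := congrFun (odds_join z (bits a)) (Nat.pair k i)
  simp only [odds] at this
  rw [colb, this]
  exact congrFun (dec_bits a) _

theorem notI {F : B → B} (hinv : ∀ x y, TEq x y → TEq (F x) (F y))
    (hfl : ∃ c, ∀ z, TLe c z → Flt F z) (σ : List ℕ → ℕ) : ∃ τ, run σ τ ∉ Win F := by
  classical
  obtain ⟨c, hc⟩ := hfl
  let X : List ℕ → Finset ℕ := fun l =>
    Finset.univ.image fun r : Fin (l.headD 0) → Bool => encode (List.ofFn r)
  let Cf : List ℕ → ℕ → List ℕ → List ℕ := fun l t L =>
    if Leg (l.length / 4) (Nat.pair t (encode L)) (σ (Nat.pair t (encode L) :: l)) then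
      lst (σ (Nat.pair t (encode L) :: l)) else []
  choose nn LL h1 h2 using fun l t => mw (X l) (Cf l t) (l.length / 4) fun L => by
    simp only [Cf]
    split_ifs with h
    · simpa only [Leg, lst_pair] using h
    · simp
  let τ : B → List ℕ → ℕ := fun u l => if l.length % 4 = 1 then Nat.pair (u (l.length / 4))
    (encode (LL l (u (l.length / 4)) (colb (l.length / 4) u))) else 0
  have lτ : ∀ l, LC fun u => τ u l := fun l q => by
    refine ⟨l.length / 4 + 2 * Nat.pair (l.length / 4) (nn l (q (l.length / 4))) + 2,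
      fun q' h => ?_⟩
    simp only [τ, h (l.length / 4) (by omega)]
    rw [h1 l _ (colb (l.length / 4) q) (colb (l.length / 4) q') fun i hi => ?_]
    have := Nat.pair_lt_pair_right (l.length / 4) hi
    simp only [colb, h (2 * Nat.pair (l.length / 4) i + 1) (by omega)]
  have lH : ∀ n, LC fun u => hist σ (τ u) n := fun n => by
    induction n with
    | zero => exact LC.const _
    | succ n ih =>
      exact ih.bind (g := fun l u => (if n % 2 = 0 then σ l else τ u l) :: l) fun l =>
        (lτ l).map fun m => (if n % 2 = 0 then σ l else m) :: l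
  have lP : ∀ n, LC fun u => run σ (τ u) n := fun n => (lH (n + 1)).map fun l => l.headD 0
  obtain ⟨e, he⟩ := lc_tle lP
  obtain ⟨v, hv⟩ := hc (join e c) (by simpa using tc_odds.tle (join e c))
  set z := join e c with hz
  have p1 : ∀ u k, run σ (τ u) (4 * k + 1) = Nat.pair (u k)
      (encode (LL (hist σ (τ u) (4 * k + 1)) (u k) (colb k u))) := fun u k => by
    rw [run_eq, if_neg (by omega)]
    simp only [τ, hist_length]
    rw [if_pos (by omega), show (4 * k + 1) / 4 = k by omega]
  have teq : ∀ a, TEq (run σ (τ (join z (bits a)))) (join z (bits a)) := fun a => by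
    refine ⟨(he _).trans (TLe.join ?_ (TLe.refl _)), ?_⟩
    · exact TLe.trans (by simpa using tc_evens.tle (join e c))
        (by simpa using tc_evens.tle (join z (bits a)))
    · have := ((TC.id.pre (Primrec.succ.comp (Primrec.nat_mul.comp (Primrec.const 4)
        Primrec.id)).to_comp).post Split.u1.to_comp).tle (run σ (τ (join z (bits a))))
      simp only [id, Nat.succ_eq_add_one, p1, Nat.unpair_pair] at this
      exact this
  have mu : Measurable fun a => join z (bits a) := (meas_join z).comp meas_bits
  have mP : Measurable fun u => run σ (τ u) := measurable_pi_lambda _ fun n =>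
    meas_of_prop fun m => ((lP n).map fun t => t = m).meas
  have bd : ∀ y k, coin {a | Hit (run σ (τ (join z (bits a)))) y k} ≤ 3 * 2⁻¹ ^ k := by
    intro y k
    refine fub (emb := emb k) (measurableSet_setOfPred.2 (meas_hit (mP.comp mu) measurable_const k))
      (measurable_pi_lambda _ fun j => ?_) fun a => ?_
    · unfold emb
      split_ifs
      exacts [measurable_pi_apply _, measurable_const]
    set u := join z (bits a) with hu
    set l := hist σ (τ u) (4 * k + 1) with hl
    have hk : l.length / 4 = k := by rw [hl, hist_length]; omega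
    have h3 := h2 l (u k) (cd y (l.headD 0)) (Finset.mem_image.2 ⟨_, Finset.mem_univ _, rfl⟩)
    rw [hk, ← measure_preimage_add coin (colb k u)] at h3
    refine (measure_mono fun b hb => ?_).trans h3
    set u' := join z (bits (emb k b + a)) with hu'
    have e1 : ∀ j ≤ k, u' j = u j := fun j hj => by
      simp only [hu, hu', join, bits, Pi.add_apply, emb]
      split_ifs with h4 h5
      · rfl
      · have := Nat.unpair_left_le (j / 2)
        omega
      · rw [zero_add]
    have e2 : ∀ j, j ≠ k → colb j u' = colb j u := fun j hj => by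
      rw [hu, hu', colb_join, colb_join]
      funext i
      simp [emb, hj]
    have e3 : colb k u' = colb k u + b := by
      rw [hu, hu', colb_join, colb_join]
      funext i
      simp [emb, add_comm]
    have e4 : ∀ n ≤ 4 * k + 1, hist σ (τ u') n = hist σ (τ u) n := fun n hn => by
      induction n with
      | zero => rfl
      | succ n ih =>
        rw [hist, hist, ih (by omega)]
        simp only [τ, hist_length]
        split_ifs with h4 h5
        · rfl
        · rw [e1 _ (by omega), e2 _ (by omega)]
        · rfl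
    have e5 : run σ (τ u') (4 * k) = l.headD 0 := by rw [run, e4 _ le_rfl]
    have e6 := p1 u' k
    rw [e4 _ le_rfl, e1 k le_rfl, e3, ← hl] at e6
    have e7 : run σ (τ u') (4 * k + 2) = σ (run σ (τ u') (4 * k + 1) :: l) := by
      rw [run_eq, if_pos (by omega), hl, ← e4 _ le_rfl]
      rfl
    have hb' : Hit (run σ (τ u')) y k := hb
    rw [Hit, e5, e7, e6] at hb'
    simp only [Set.mem_preimage, Set.mem_ofPred_eq, Cf, hk, if_pos hb'.2]
    exact hb'.1
  have fin : ∀ y, ∀ᵐ a ∂coin, ∀ᶠ k in atTop, a ∉ {a | Hit (run σ (τ (join z (bits a)))) y k} :=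
    fun y => ae_eventually_notMem (ne_top_of_le_ne_top (by
      rw [ENNReal.tsum_mul_left, ENNReal.tsum_geometric_two]
      exact ENNReal.mul_ne_top (by norm_num) (by norm_num)) (ENNReal.tsum_le_tsum (bd y)))
  obtain ⟨a, a1, a2⟩ := (hv.and (ae_all_iff.2 fun e => fin (dec (tot e v)))).exists
  refine ⟨τ (join z (bits a)), fun ⟨y, y1, y2⟩ => ?_⟩
  obtain ⟨e', rfl⟩ := exists_dec (y1.trans ((hinv _ _ (teq a)).trans a1).1)
  obtain ⟨n, hn⟩ := eventually_atTop.1 (a2 e')
  obtain ⟨k, k1, k2⟩ := y2 n
  exact hn k k1 k2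

end Pool.Agent.Lib.MP_fa224b_lc.K
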