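import Pool.Agent.Lib.MP_fa224b_lc.K.GameA

/-! A winning strategy of the listing player gives the measure. -/

namespace Pool.Agent.Lib.MP_fa224b_lc.K

open MeasureTheory Encodable Filter C Topology
open scoped ENNReal

/-- the clopen set given by a finite list of binary strings -/
def cyl (S : List (List Bool)) : Set (ℕ → Bool) := {y | ∃ s ∈ S, (List.range s.length).map y = s}

def Fd (K : Set (ℕ → Bool)) (d : ℕ) : Prop := ∀ y ∈ K, ∀ y', (∀ i < d, y' i = y i) → y' ∈ K

theorem fd_cyl (S : List (List Bool)) : Fd (cyl S) (S.map List.length).sum := by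
  rintro y ⟨s, hs, e⟩ y' h
  have := List.single_le_sum (l := S.map List.length) (fun _ _ => Nat.zero_le _) _
    (List.mem_map_of_mem hs)
  exact ⟨s, hs, (List.map_congr_left fun i hi => h i ((List.mem_range.1 hi).trans_le this)).trans e⟩

def ext (s : ℕ) : ℕ → Bool := fun i => ((decode s : Option (List Bool)).getD []).getD i false

theorem ext_cd (y : ℕ → Bool) {d i : ℕ} (h : i < d) : ext (cd y d) i = y i := by
  simp [ext, cd, List.getD_eq_getElem?_getD, h]

noncomputable def ms (L : List ℕ) : Measure (ℕ → Bool) := (L.map fun s => Measure.dirac (ext s)).sum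

theorem ms_univ (L : List ℕ) : ms L Set.univ = L.length := by
  induction L with
  | nil => simp [ms]
  | cons a L ih =>
    simp only [ms, List.map_cons, List.sum_cons, Measure.add_apply, measure_univ, List.length_cons,
      Nat.cast_add, Nat.cast_one] at ih ⊢
    rw [ih, add_comm]

theorem ms_ge (L D : List ℕ) {K : Set (ℕ → Bool)} (h : ∀ s ∈ D, ext s ∈ K) :
    (L.countP (· ∈ D) : ℝ≥0∞) ≤ ms L K := by
  induction L with
  | nil => simp
  | cons a L ih =>
    simp only [ms, List.map_cons, List.sum_cons, Measure.add_apply, List.countP_cons,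
      Nat.cast_add] at ih ⊢
    rw [add_comm]
    refine add_le_add ?_ ih
    split_ifs with h1
    · rw [Measure.dirac_apply_of_mem (h a (by simpa using h1)), Nat.cast_one]
    · simp

theorem lim (L : ℕ → List ℕ) : ∃ β : Measure (ℕ → Bool), IsProbabilityMeasure β ∧
    ∀ K d₀ k, Fd K d₀ → β K < 2⁻¹ ^ k → ∃ p : ℕ × List ℕ, (∀ y ∈ K, cd y p.1 ∈ p.2) ∧
      (L p.1).countP (· ∈ p.2) * 2 ^ k ≤ (L p.1).length := by
  classical
  have n0 : ∀ d, (((L d).length + 1 : ℕ) : ℝ≥0∞) ≠ 0 := fun d => by simp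
  have n1 : ∀ d, (((L d).length + 1 : ℕ) : ℝ≥0∞) ≠ ⊤ := fun d => by simp
  let ρ : ℕ → ProbabilityMeasure (ℕ → Bool) := fun d =>
    ⟨(((L d).length + 1 : ℕ) : ℝ≥0∞)⁻¹ • ms (0 :: L d), ⟨by
      rw [Measure.smul_apply, ms_univ, smul_eq_mul]
      exact ENNReal.inv_mul_cancel (n0 d) (n1 d)⟩⟩
  obtain ⟨β, -, hβ⟩ := isCompact_univ.ultrafilter_le_nhds ((hyperfilter ℕ).map ρ) (by simp)
  refine ⟨β, β.2, fun K d₀ k hK h => ?_⟩
  have hc : IsClopen K := by
    have e : K = (fun (y : ℕ → Bool) (i : Fin d₀) => y i) ⁻¹'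
        {r | ∃ y ∈ K, ∀ i : Fin d₀, r i = y i} := by
      ext y
      exact ⟨fun hy => ⟨y, hy, fun _ => rfl⟩, fun ⟨y', h1, h2⟩ => hK y' h1 y fun i hi => h2 ⟨i, hi⟩⟩
    rw [e]
    exact (isClopen_discrete _).preimage (continuous_pi fun i => continuous_apply (i : ℕ))
  have ht := ProbabilityMeasure.tendsto_measure_of_null_frontier_of_tendsto'
    (show Tendsto ρ (hyperfilter ℕ : Filter ℕ) (𝓝 β) from hβ) (E := K)
    (by rw [hc.frontier_eq, measure_empty])
  have hd : ∀ᶠ d in (hyperfilter ℕ : Filter ℕ), d₀ ≤ d :=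
    hyperfilter_le_cofinite (Nat.cofinite_eq_atTop ▸ eventually_ge_atTop d₀)
  obtain ⟨d, d1, d2⟩ := ((ht.eventually_lt_const h).and hd).exists
  have hf : {s | ∃ y ∈ K, cd y d = s}.Finite :=
    (Set.finite_range fun r : Fin d → Bool => encode (List.ofFn r)).subset
      fun s ⟨y, _, e⟩ => ⟨_, e⟩
  refine ⟨(d, hf.toFinset.toList), fun y hy => by simpa using ⟨y, hy, rfl⟩, ?_⟩
  have h1 := ms_ge (0 :: L d) hf.toFinset.toList (K := K) fun s hs => by
    obtain ⟨y, hy, rfl⟩ : ∃ y ∈ K, cd y d = s := by simpa using hs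
    exact hK y hy _ fun i hi => ext_cd y (hi.trans_le d2)
  have h2 : (((L d).length + 1 : ℕ) : ℝ≥0∞)⁻¹ * ms (0 :: L d) K < 2⁻¹ ^ k := d1
  have h3 : (L d).countP (· ∈ hf.toFinset.toList) ≤ (0 :: L d).countP (· ∈ hf.toFinset.toList) :=
    (List.sublist_cons_self _ _).countP_le
  rw [mul_comm, ← div_eq_mul_inv, ENNReal.div_lt_iff (Or.inl (n0 d)) (Or.inl (n1 d))] at h2
  have h4 := (ENNReal.mul_lt_mul_iff_left (c := 2 ^ k) (by simp) (by simp)).2
    (((Nat.cast_le.2 h3).trans h1).trans_lt h2)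
  rw [mul_right_comm, ← mul_pow, ENNReal.inv_mul_cancel (by norm_num) (by norm_num), one_pow,
    one_mul] at h4
  exact Nat.lt_succ_iff.1 (by exact_mod_cast h4)

def NN (l : List ℕ) : ℕ := encode l + l.length + 3

theorem glob (τ : List ℕ → ℕ) : ∃ β : Measure (ℕ → Bool), IsProbabilityMeasure β ∧
    ∃ sel : List ℕ → Set (ℕ → Bool) → ℕ × List ℕ, ∀ l K d₀, Fd K d₀ → β K ≤ 2 * 2⁻¹ ^ NN l →
      (∀ y ∈ K, cd y (sel l K).1 ∈ (sel l K).2) ∧
      ∀ t, Leg (l.length / 4) (τ ((sel l K).1 :: l)) (Nat.pair t (encode (sel l K).2)) := by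
  choose γ g1 g2 using fun l => lim fun d => lst (τ (d :: l))
  let β := Measure.sum fun i : ℕ => (2⁻¹ : ℝ≥0∞) ^ (i + 1) • γ (Denumerable.ofNat _ i)
  refine ⟨β, ⟨?_⟩, fun l K => Classical.epsilon fun p : ℕ × List ℕ => (∀ y ∈ K, cd y p.1 ∈ p.2) ∧
      (lst (τ (p.1 :: l))).countP (· ∈ p.2) * 2 ^ (l.length / 4) ≤ (lst (τ (p.1 :: l))).length,
      fun l K d₀ hK h => ?_⟩
  · rw [Measure.sum_apply _ MeasurableSet.univ]
    simp only [Measure.smul_apply, measure_univ, smul_eq_mul, mul_one]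
    rw [ENNReal.tsum_geometric_add_one, ENNReal.one_sub_inv_two, inv_inv,
      ENNReal.inv_mul_cancel (by norm_num) (by norm_num)]
  · have h1 : (2⁻¹ : ℝ≥0∞) ^ (encode l + 1) * γ l K ≤ β K := by
      simpa using Measure.le_iff'.1 (Measure.le_sum (fun i : ℕ => (2⁻¹ : ℝ≥0∞) ^ (i + 1) •
        γ (Denumerable.ofNat _ i)) (encode l)) K
    have h2 : (2 : ℝ≥0∞) * 2⁻¹ ^ NN l < 2⁻¹ ^ (encode l + 1) * 2⁻¹ ^ (l.length / 4) := by
      rw [NN, pow_succ', ← mul_assoc, ENNReal.mul_inv_cancel (by norm_num) (by norm_num), one_mul,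
        ← pow_add, ← ENNReal.inv_pow, ← ENNReal.inv_pow, ENNReal.inv_lt_inv]
      exact_mod_cast Nat.pow_lt_pow_right (by norm_num) (by omega)
    have h3 := Classical.epsilon_spec (g2 l K d₀ (l.length / 4) hK
      (lt_of_mul_lt_mul_left' ((h1.trans h).trans_lt h2)))
    exact ⟨h3.1, fun t => by simpa only [Leg, lst_pair] using h3.2⟩

section run

variable (τ : List ℕ → ℕ) (sel : List ℕ → Set (ℕ → Bool) → ℕ × List ℕ)

abbrev St : Type := List ℕ × List ℕ × ℕ

def nx (s : St) : ℕ := max (s.2.2 + 1) (NN s.2.1)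

def inp (q : B) (s : St) : Set (ℕ → Bool) × ℕ :=
  ({y | ∃ i, s.2.2 ≤ i ∧ i < nx s ∧ y ∈ cyl ((decode (q (2 * i))).getD [])},
    q (2 * (s.1.length / 4) + 1))

def mv (s : St) (r : Set (ℕ → Bool) × ℕ) (j : ℕ) : ℕ :=
  if j % 2 = 0 then (sel s.1 r.1).1 else Nat.pair r.2 (encode (sel s.1 r.1).2)

def stp (s : St) (r : Set (ℕ → Bool) × ℕ) : St :=
  (s.2.1, τ (mv sel s r 1 :: τ (mv sel s r 0 :: s.1) :: mv sel s r 0 :: s.1) :: mv sel s r 1 ::
    τ (mv sel s r 0 :: s.1) :: mv sel s r 0 :: s.1, nx s)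

def SS (q : B) : ℕ → St
  | 0 => ([], [], NN [])
  | j + 1 => stp τ sel (SS q j) (inp q (SS q j))

def bb (ε : ℕ) (q : B) : B := fun n =>
  mv sel (SS τ sel q (2 * (n / 2) + ε)) (inp q (SS τ sel q (2 * (n / 2) + ε))) n

theorem lc_inp (s : St) : LC fun q => inp q s := fun q => by
  refine ⟨2 * nx s + 2 * (s.1.length / 4) + 2, fun q' h => Prod.ext ?_ (h _ (by omega))⟩
  ext y
  refine exists_congr fun i => and_congr_right fun _ => and_congr_right fun hi => ?_
  rw [h _ (by omega)]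

theorem lc_SS (j : ℕ) : LC fun q => SS τ sel q j := by
  induction j with
  | zero => exact LC.const _
  | succ j ih => exact ih.bind (g := fun s q => stp τ sel s (inp q s)) fun s => (lc_inp s).map _

theorem lc_run (ε n : ℕ) : LC fun q => run (blind (bb τ sel ε q)) τ n := by
  have lH : ∀ n, LC fun q => hist (blind (bb τ sel ε q)) τ n := fun n => by
    induction n with
    | zero => exact LC.const _
    | succ n ih =>
      exact ih.bind (g := fun l q => (if n % 2 = 0 then blind (bb τ sel ε q) l else τ l) :: l)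
        fun l => ((lc_SS τ sel _).bind (g := fun s q => mv sel s (inp q s) (l.length / 2))
          fun s => (lc_inp s).map fun r => mv sel s r _).map
            fun m => (if n % 2 = 0 then m else τ l) :: l
  exact (lH (n + 1)).map fun l => l.headD 0

theorem hist_bb {ε : ℕ} (hε : ε < 2) (q : B) (k : ℕ) :
    hist (blind (bb τ sel ε q)) τ (4 * k) = (SS τ sel q (2 * k + ε)).1 := by
  induction k with
  | zero => interval_cases ε <;> rfl
  | succ k ih =>
    rw [show 4 * (k + 1) = 4 * k + 1 + 1 + 1 + 1 by ring, show 2 * (k + 1) + ε = 2 * k + ε + 1 + 1 by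
      ring, hist, if_neg (by omega), hist, if_pos (by omega), hist, if_neg (by omega), hist,
      if_pos (by omega)]
    simp only [blind, List.length_cons, hist_length, bb]
    rw [show 4 * k / 2 = 2 * k by omega, show (4 * k + 1 + 1) / 2 = 2 * k + 1 by omega,
      show 2 * k / 2 = k by omega, show (2 * k + 1) / 2 = k by omega, ih]
    simp only [SS, stp, mv]
    rw [if_pos (by omega : 2 * k % 2 = 0), if_neg (by omega : ¬ (2 * k + 1) % 2 = 0)]
    rfl

end run

theorem ofII {F : B → B} (hinv : ∀ x y, TEq x y → TEq (F x) (F y)) {τ : List ℕ → ℕ}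
    (hτ : ∀ σ, run σ τ ∉ Win F) : ∃ β : Measure (ℕ → Bool), IsProbabilityMeasure β ∧ ∃ c, ∀ x,
      TLe c x → ∀ W : ℕ → List (List Bool), TLe (fun n => encode (W n)) x →
      (∀ n, β (cyl (W n)) ≤ 2⁻¹ ^ n) → ∀ y, TLe (bits y) (F x) → {n | y ∈ cyl (W n)}.Finite := by
  obtain ⟨β, hβ, sel, hs⟩ := glob τ
  choose e he using fun ε => lc_tle (lc_run τ sel ε)
  refine ⟨β, hβ, join (e 0) (e 1), fun x hx W hW hm y hy => ?_⟩
  by_contra hinf
  set q := join (fun n => encode (W n)) x with hq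
  have q0 : ∀ i, (decode (q (2 * i)) : Option (List (List Bool))).getD [] = W i := fun i => by
    have := congrFun (evens_join (fun n => encode (W n)) x) i
    simp only [evens] at this
    rw [hq, this, encodek, Option.getD_some]
  have q1 : ∀ i, q (2 * i + 1) = x i := fun i => congrFun (odds_join _ x) i
  set S := SS τ sel q with hS
  have mono : StrictMono fun j => (S j).2.2 := strictMono_nat_of_lt_succ fun j =>
    lt_max_of_lt_left (Nat.lt_succ_self _)
  have nN : ∀ j, NN (S j).1 ≤ (S j).2.2 := fun j => by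
    cases j with
    | zero => exact le_rfl
    | succ j => exact le_max_right _ _
  have io : ∀ j₀, ∃ j, j₀ ≤ j ∧ y ∈ (inp q (S j)).1 := fun j₀ => by
    obtain ⟨i, i1, i2⟩ := Set.Infinite.exists_gt hinf (S j₀).2.2
    have ex : ∃ j, i < (S j).2.2 := ⟨i + 1, mono.id_le (i + 1)⟩
    have j1 := Nat.find_spec ex
    have j2 : j₀ < Nat.find ex := mono.lt_iff_lt.1 (i2.trans j1)
    obtain ⟨j, hj⟩ : ∃ j, Nat.find ex = j + 1 := ⟨Nat.find ex - 1, by omega⟩
    rw [hj] at j1
    refine ⟨j, by omega, i, not_lt.1 (Nat.find_min ex (by omega)), j1, ?_⟩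
    rwa [q0]
  obtain ⟨ε, hε, io'⟩ : ∃ ε < 2, ∀ n, ∃ k, n ≤ k ∧ y ∈ (inp q (S (2 * k + ε))).1 := by
    by_contra h
    push Not at h
    obtain ⟨n0, h0⟩ := h 0 (by norm_num)
    obtain ⟨n1, h1⟩ := h 1 (by norm_num)
    obtain ⟨j, j1, j2⟩ := io (2 * (n0 + n1))
    rcases Nat.mod_two_eq_zero_or_one j with h2 | h2
    · exact h0 (j / 2) (by omega) (by rwa [show 2 * (j / 2) + 0 = j by omega])
    · exact h1 (j / 2) (by omega) (by rwa [show 2 * (j / 2) + 1 = j by omega])
  set p := run (blind (bb τ sel ε q)) τ with hp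
  have len : ∀ k, (S (2 * k + ε)).1.length / 4 = k := fun k => by
    rw [hS, ← hist_bb τ sel hε, hist_length]
    omega
  have ev : ∀ n, p (2 * n) = bb τ sel ε q n := fun n => congrFun (evens_run τ _) n
  have p0 : ∀ k, p (4 * k) = (sel (S (2 * k + ε)).1 (inp q (S (2 * k + ε))).1).1 := fun k => by
    rw [show 4 * k = 2 * (2 * k) by ring, ev, bb, mv, if_pos (by omega),
      show 2 * k / 2 = k by omega]
  have p2 : ∀ k, p (4 * k + 2) = Nat.pair (x k)
      (encode (sel (S (2 * k + ε)).1 (inp q (S (2 * k + ε))).1).2) := fun k => by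
    rw [show 4 * k + 2 = 2 * (2 * k + 1) by ring, ev, bb, mv, if_neg (by omega),
      show (2 * k + 1) / 2 = k by omega, ← q1 k]
    exact congrArg (fun t => Nat.pair (q (2 * t + 1)) _) (len k)
  have p1 : ∀ k, p (4 * k + 1) = τ (p (4 * k) :: (S (2 * k + ε)).1) := fun k => by
    rw [hp, run_eq, if_neg (by omega), hS, ← hist_bb τ sel hε]
    rfl
  have teq : TEq p x := by
    refine ⟨(he ε q).trans (TLe.join (TLe.trans ?_ hx) (hW.join (TLe.refl x))), ?_⟩
    · interval_cases ε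
      · simpa using tc_evens.tle (join (e 0) (e 1))
      · simpa using tc_odds.tle (join (e 0) (e 1))
    · have := ((TC.id.pre (Primrec.succ.comp (Primrec.succ.comp (Primrec.nat_mul.comp
        (Primrec.const 4) Primrec.id))).to_comp).post Split.u1.to_comp).tle p
      simp only [id, Nat.succ_eq_add_one, add_assoc, Nat.reduceAdd, p2, Nat.unpair_pair] at this
      exact this
  refine hτ _ ⟨y, hy.trans (hinv _ _ teq).2, fun n => ?_⟩
  obtain ⟨k, k1, k2⟩ := io' n
  set s := S (2 * k + ε) with hs'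
  have h1 := hs s.1 (inp q s).1 (∑ i ∈ Finset.range (nx s), ((W i).map List.length).sum)
    (fun y ⟨i, i1, i2, i3⟩ y' h => ⟨i, i1, i2, by
      rw [q0] at i3 ⊢
      exact fd_cyl _ y i3 y' fun j hj => h j (hj.trans_le (Finset.single_le_sum
        (f := fun i => ((W i).map List.length).sum) (fun _ _ => Nat.zero_le _)
        (Finset.mem_range.2 i2)))⟩) (by
    have h2 : (inp q s).1 ⊆ ⋃ i, cyl (W (i + NN s.1)) := fun y ⟨i, i1, _, i3⟩ => by
      have := nN (2 * k + ε)
      rw [q0] at i3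
      exact Set.mem_iUnion.2 ⟨i - NN s.1, by rwa [Nat.sub_add_cancel (this.trans i1)]⟩
    refine ((measure_mono h2).trans (measure_iUnion_le _)).trans
      ((ENNReal.tsum_le_tsum fun i => hm _).trans ?_)
    simp only [pow_add]
    rw [ENNReal.tsum_mul_right, ENNReal.tsum_geometric_two])
  refine ⟨k, k1, ?_, ?_⟩
  · rw [← hp, p0, p2, lst_pair]
    exact h1.1 y k2
  · rw [← hp, p1, p0, p2]
    have := h1.2 (x k)
    rwa [len k] at this

end Pool.Agent.Lib.MP_fa224b_lc.K
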