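import Pool.Agent.Lib.MP_fa224b_lc.C.AeComp

/-! Continuous maps are computable in a parameter; averaging; multiplicative weights. -/

namespace Pool.Agent.Lib.MP_fa224b_lc.K

open MeasureTheory Encodable Filter C
open scoped ENNReal

/-- locally constant functions on Baire space -/
def LC {α : Type} (f : B → α) : Prop := ∀ q, ∃ m, ∀ q', (∀ i < m, q' i = q i) → f q' = f q

theorem LC.const {α : Type} (a : α) : LC fun _ => a := fun _ => ⟨0, fun _ _ => rfl⟩

theorem LC.bind {α β : Type} {f : B → α} {g : α → B → β} (hf : LC f) (hg : ∀ a, LC (g a)) :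
    LC fun q => g (f q) q := fun q => by
  obtain ⟨m, hm⟩ := hf q
  obtain ⟨m', hm'⟩ := hg (f q) q
  refine ⟨max m m', fun q' h => ?_⟩
  show g (f q') q' = g (f q) q
  rw [hm q' fun i hi => h i (lt_max_of_lt_left hi)]
  exact hm' q' fun i hi => h i (lt_max_of_lt_right hi)

theorem LC.map {α β : Type} {f : B → α} (hf : LC f) (g : α → β) : LC fun q => g (f q) :=
  hf.bind (g := fun a _ => g a) fun a => LC.const _

theorem LC.meas {f : B → Prop} (hf : LC f) : Measurable f := by
  have e : f = fun q => ∃ m, ∀ q', encode (rp q' m) = encode (rp q m) → f q' := by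
    funext q
    refine propext ⟨fun h => ?_, fun ⟨m, h⟩ => h q rfl⟩
    obtain ⟨m, hm⟩ := hf q
    exact ⟨m, fun q' e => (hm q' (AeComp.rp_inj (encode_injective e))).symm ▸ h⟩
  rw [e]
  exact Measurable.exists fun m => (measurable_of_countable fun c : ℕ =>
    ∀ q', encode (rp q' m) = c → f q').comp (meas_rp m)

open Split in
theorem lc_tle {Φ : B → B} (h : ∀ n, LC fun q => Φ q n) : ∃ e, ∀ q, TLe (Φ q) (join e q) := by
  classical
  let P : ℕ → ℕ → ℕ → Prop := fun n c v => ∀ y t, encode (rp y t) = c → Φ y n = v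
  let e : B := fun p => if h : ∃ v, P p.unpair.1 p.unpair.2 v then h.choose + 1 else 0
  refine ⟨e, fun x => ?_⟩
  have l1 : TLe e (join e x) := by simpa using tc_evens.tle (join e x)
  have l2 : TLe x (join e x) := by simpa using tc_odds.tle (join e x)
  have t1 := app l1 (post₂ (prim u1 _) (app ((tc_rp.tle x).trans l2) (prim u2 _)) Primrec₂.natPair)
  have ex : ∀ n, ∃ s, 1 - e (Nat.pair n (encode (rp x s))) = 0 := fun n => by
    obtain ⟨s, hs⟩ := h n x
    have : ∃ v, P n (encode (rp x s)) v :=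
      ⟨Φ x n, fun y t e => hs y (AeComp.rp_inj (encode_injective e))⟩
    exact ⟨s, by simp only [e, Nat.unpair_pair]; rw [dif_pos this]; omega⟩
  have t2 := find (app (prim (Primrec.nat_sub.comp (Primrec.const 1) Primrec.id) _) t1)
    fun n => by simpa only [Nat.unpair_pair, id] using ex n
  have t3 := app (prim Primrec.pred _) (app t1 (post₂ (prim Primrec.id _) t2 Primrec₂.natPair))
  refine (ZeroOne.tle_of_tail (N := 0) fun n _ => ?_).trans t3
  have key : ∀ s, 1 - e (Nat.pair n (encode (rp x s))) = 0 →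
      Φ x n = (e (Nat.pair n (encode (rp x s)))).pred := fun s hs => by
    simp only [e, Nat.unpair_pair] at hs ⊢
    split_ifs at hs ⊢ with h3
    exact h3.choose_spec x s rfl
  simp only [Nat.unpair_pair, id]
  exact key _ (by
    generalize_proofs h3
    simpa only [Nat.unpair_pair, id] using Nat.find_spec h3)

/-- averaging over translations -/
theorem fub {E : Set (ℕ → Bool)} (hE : MeasurableSet E) {emb : (ℕ → Bool) → ℕ → Bool}
    (he : Measurable emb) {δ : ℝ≥0∞} (h : ∀ a, coin {b | emb b + a ∈ E} ≤ δ) : coin E ≤ δ := by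
  have hm : Measurable fun p : (ℕ → Bool) × (ℕ → Bool) => emb p.1 + p.2 :=
    measurable_pi_lambda _ fun n => (measurable_of_countable fun t : Bool × Bool => t.1 + t.2).comp
      ((((measurable_pi_apply n).comp he).comp measurable_fst).prodMk
        ((measurable_pi_apply n).comp measurable_snd))
  have h1 : (coin.prod coin) ((fun p : (ℕ → Bool) × (ℕ → Bool) => emb p.1 + p.2) ⁻¹' E) = coin E := by
    rw [Measure.prod_apply (hm hE)]
    have : ∀ b, coin (Prod.mk b ⁻¹' ((fun p : (ℕ → Bool) × (ℕ → Bool) => emb p.1 + p.2) ⁻¹' E)) =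
        coin E := fun b => measure_preimage_add coin (emb b) E
    simp only [this, lintegral_const, measure_univ, mul_one]
  rw [← h1, Measure.prod_apply_symm (hm hE)]
  exact (lintegral_mono fun a => h a).trans (by simp)

theorem coin_res {n : ℕ} (S : Finset (Fin n → Bool)) :
    coin {b | (fun i : Fin n => b i) ∈ S} ≤ S.card * 2⁻¹ ^ n := by
  classical
  have h1 : ∀ r : Fin n → Bool, coin {b | (fun i : Fin n => b i) = r} = 2⁻¹ ^ n := fun r => by
    have e : {b : ℕ → Bool | (fun i : Fin n => b i) = r} =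
        Set.pi (Finset.range n) fun i => {t | ∀ h : i < n, t = r ⟨i, h⟩} := by
      ext b
      simp only [Set.mem_ofPred_eq, funext_iff, Set.mem_pi, Finset.coe_range, Set.mem_Iio]
      exact ⟨fun h i _ hi => h ⟨i, hi⟩, fun h i => h i i.2 i.2⟩
    rw [e, coin, Measure.infinitePi_pi _ fun _ _ => MeasurableSet.of_discrete,
      Finset.prod_congr rfl (g := fun _ => 2⁻¹), Finset.prod_const, Finset.card_range]
    intro i hi
    have hi' := Finset.mem_range.1 hi
    have : {t | ∀ h : i < n, t = r ⟨i, h⟩} = {r ⟨i, hi'⟩} := by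
      ext t
      exact ⟨fun h => h hi', fun h _ => h⟩
    rw [this, ProbabilityTheory.uniformOn_univ, Measure.count_singleton]
    simp
  have e : {b : ℕ → Bool | (fun i : Fin n => b i) ∈ S} = ⋃ r ∈ S, {b | (fun i : Fin n => b i) = r} := by
    ext b
    simp
  rw [e]
  refine (measure_biUnion_finset_le S _).trans ?_
  simp [h1]

/-- counters of the multiplicative weights scheme -/
noncomputable def mwc (X : Finset ℕ) (C : List ℕ → List ℕ) : ℕ → ℕ → ℕ
  | 0 => fun _ => 0
  | t + 1 => fun x => mwc X C t x +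
      if x ∈ C (X.toList.flatMap fun x => List.replicate (2 ^ mwc X C t x) x) then 1 else 0

noncomputable def mwl (X : Finset ℕ) (C : List ℕ → List ℕ) (t : ℕ) : List ℕ :=
  X.toList.flatMap fun x => List.replicate (2 ^ mwc X C t x) x

theorem mwc_succ (X : Finset ℕ) (C : List ℕ → List ℕ) (t x : ℕ) :
    mwc X C (t + 1) x = mwc X C t x + if x ∈ C (mwl X C t) then 1 else 0 := rfl

theorem mwc_eq (X : Finset ℕ) (C : List ℕ → List ℕ) (T x : ℕ) :
    mwc X C T x = ((Finset.range T).filter fun t => x ∈ C (mwl X C t)).card := by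
  induction T with
  | zero => rfl
  | succ T ih =>
    rw [mwc_succ, ih, Finset.range_add_one, Finset.filter_insert]
    split_ifs with h
    · rw [Finset.card_insert_of_notMem (by simp)]
    · rfl

theorem cnt_rep (A : List ℕ) (w : ℕ → ℕ) (D : List ℕ) :
    (A.flatMap fun x => List.replicate (w x) x).countP (· ∈ D) =
      (A.map fun x => if x ∈ D then w x else 0).sum := by
  induction A with
  | nil => rfl
  | cons a A ih => simp [List.flatMap_cons, List.countP_append, ih, List.countP_replicate]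

theorem mw_len (X : Finset ℕ) (C : List ℕ → List ℕ) (t : ℕ) :
    (mwl X C t).length = ∑ x ∈ X, 2 ^ mwc X C t x := by
  simp [mwl, List.length_flatMap, Finset.sum_map_toList]

theorem mw_succ (X : Finset ℕ) (C : List ℕ → List ℕ) (t : ℕ) :
    (mwl X C (t + 1)).length = (mwl X C t).length + (mwl X C t).countP (· ∈ C (mwl X C t)) := by
  have := cnt_rep X.toList (fun x => 2 ^ mwc X C t x) (C (mwl X C t))
  rw [mw_len, mw_len]
  erw [this]
  rw [Finset.sum_map_toList, ← Finset.sum_add_distrib]
  refine Finset.sum_congr rfl fun x _ => ?_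
  rw [mwc_succ]
  split_ifs <;> simp [pow_succ, mul_two]

theorem mw_count (X : Finset ℕ) (C : List ℕ → List ℕ) (k : ℕ)
    (h : ∀ L : List ℕ, L.countP (· ∈ C L) * 2 ^ k ≤ L.length) {x : ℕ} (hx : x ∈ X) :
    mwc X C (2 ^ (k + X.card)) x ≤ 3 * 2 ^ X.card := by
  have h1 : ∀ t, ((mwl X C t).length : ℝ) ≤ X.card * Real.exp (t / 2 ^ k) := fun t => by
    induction t with
    | zero => simp [mw_len, mwc]
    | succ t ih =>
      have h2 : ((mwl X C t).countP (· ∈ C (mwl X C t)) : ℝ) * 2 ^ k ≤ (mwl X C t).length := by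
        exact_mod_cast h _
      have h3 : (0 : ℝ) < 2 ^ k := by positivity
      have h4 := Real.add_one_le_exp (1 / 2 ^ k)
      rw [mw_succ, Nat.cast_add, Nat.cast_add, Nat.cast_one, add_div, Real.exp_add, ← mul_assoc]
      calc _ ≤ ((mwl X C t).length : ℝ) * (1 / 2 ^ k + 1) := by
            rw [mul_add, mul_one, add_comm, mul_one_div]
            gcongr
            rwa [le_div_iff₀ h3]
        _ ≤ _ := by gcongr
  have h2 := h1 (2 ^ (k + X.card))
  have h3 : 2 ^ mwc X C (2 ^ (k + X.card)) x ≤ (mwl X C (2 ^ (k + X.card))).length := by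
    rw [mw_len]
    exact Finset.single_le_sum (f := fun x => 2 ^ mwc X C (2 ^ (k + X.card)) x)
      (fun _ _ => Nat.zero_le _) hx
  have h4 : ((2 ^ (k + X.card) : ℕ) : ℝ) / 2 ^ k = ((2 ^ X.card : ℕ) : ℝ) * 1 := by
    push_cast
    rw [pow_add]
    field_simp
  rw [h4, Real.exp_nat_mul] at h2
  have h5 : (X.card : ℝ) ≤ 2 ^ 2 ^ X.card := by
    exact_mod_cast (Nat.lt_two_pow_self.trans Nat.lt_two_pow_self).le
  have h6 : Real.exp 1 ^ 2 ^ X.card ≤ (2 ^ 2) ^ 2 ^ X.card :=
    pow_le_pow_left₀ (Real.exp_pos 1).le (by have := Real.exp_one_lt_d9; norm_num at this ⊢; linarith) _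
  have h7 : ((2 ^ mwc X C (2 ^ (k + X.card)) x : ℕ) : ℝ) ≤ 2 ^ (3 * 2 ^ X.card) :=
    calc _ ≤ ((mwl X C (2 ^ (k + X.card))).length : ℝ) := by exact_mod_cast h3
      _ ≤ 2 ^ 2 ^ X.card * (2 ^ 2) ^ 2 ^ X.card := h2.trans (by gcongr)
      _ = _ := by rw [← pow_mul, ← pow_add]; congr 1; ring
  exact (Nat.pow_le_pow_iff_right (by norm_num : 1 < 2)).1 (by exact_mod_cast h7)

/-- finite minimax: a random list whose answer rarely contains any given point -/
theorem mw (X : Finset ℕ) (C : List ℕ → List ℕ) (k : ℕ)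
    (h : ∀ L : List ℕ, L.countP (· ∈ C L) * 2 ^ k ≤ L.length) :
    ∃ (n : ℕ) (L : (ℕ → Bool) → List ℕ), (∀ b b', (∀ i < n, b' i = b i) → L b' = L b) ∧
      ∀ x ∈ X, coin {b | x ∈ C (L b)} ≤ 3 * 2⁻¹ ^ k := by
  classical
  let n := k + X.card
  let e : (Fin n → Bool) ≃ Fin (2 ^ n) := Fintype.equivFinOfCardEq (by simp)
  refine ⟨n, fun b => mwl X C (e fun i => b i), fun b b' hb => ?_, fun x hx => ?_⟩
  · simp only [show (fun i : Fin n => b' i) = fun i : Fin n => b i from funext fun i => hb i i.2]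
  · have h1 := coin_res (Finset.univ.filter fun r : Fin n → Bool => x ∈ C (mwl X C (e r)))
    simp only [Finset.mem_filter, Finset.mem_univ, true_and] at h1
    refine h1.trans ?_
    have h2 : (Finset.univ.filter fun r : Fin n → Bool => x ∈ C (mwl X C (e r))).card ≤
        3 * 2 ^ X.card := by
      refine le_trans ?_ (mw_count X C k h hx)
      rw [mwc_eq]
      refine Finset.card_le_card_of_injOn (fun r => (e r : ℕ)) (fun r hr => ?_)
        fun r _ r' _ h => e.injective (Fin.ext h)
      simp only [Finset.coe_filter, Finset.mem_univ, true_and, Set.mem_ofPred_eq,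
        Finset.mem_range] at hr ⊢
      exact ⟨(e r).2, hr⟩
    calc _ ≤ ((3 * 2 ^ X.card : ℕ) : ℝ≥0∞) * 2⁻¹ ^ n := by gcongr
      _ = _ := by
        push_cast
        rw [pow_add, mul_assoc, mul_comm (2⁻¹ ^ k), ← mul_assoc (2 ^ X.card), ← mul_pow,
          ENNReal.mul_inv_cancel (by norm_num) (by norm_num), one_pow, one_mul]

end Pool.Agent.Lib.MP_fa224b_lc.K
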